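import Pool.Agent.H113.SI.SM
import Pool.Agent.H560.SI.StmB

/-!
# Smooth polynomials around some member of a family (task SMA, for helper560)

The proof is helper113's proof of SM, summed over the members of the family.
-/

set_option autoImplicit false


open Finset Polynomial
open scoped Classical
open Pool.Agent.H694.Typ
open Pool.Agent.H560.SI
open Pool.Agent.H113.SI

namespace Pool.Agent.H385.SI

variable {K : Type} [Field K] [Fintype K]

/-- the differences of the quotients -/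
theorem quo_deg {N H j : ℕ} {S S' w : K[X]} (hS : S.Monic) (hSN : S.natDegree = N)
    (hS' : S'.Monic) (hSN' : S'.natDegree = N) (hw : w.Monic) (hwj : w.natDegree = j)
    (hj : j ≤ N) (hjH : j ≤ H)
    (h : (S /ₘ w - S' /ₘ w).degree < ((H - j : ℕ) : WithBot ℕ)) :
    (S - S').degree < (H : WithBot ℕ) := by
  obtain ⟨-, -, f3⟩ := div_facts hS hSN hw hwj hj
  obtain ⟨-, -, g3⟩ := div_facts hS' hSN' hw hwj hj
  have hjH' : (j : WithBot ℕ) ≤ (H : WithBot ℕ) := by exact_mod_cast hjH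
  have e : S - S' = (w * (S /ₘ w - S' /ₘ w) + (S - w * (S /ₘ w))) - (S' - w * (S' /ₘ w)) := by
    ring
  rw [e]
  refine (degree_sub_le _ _).trans_lt ?_
  rw [max_lt_iff]
  refine ⟨?_, g3.trans_le hjH'⟩
  refine (degree_add_le _ _).trans_lt ?_
  rw [max_lt_iff]
  refine ⟨?_, f3.trans_le hjH'⟩
  by_cases h0 : (S /ₘ w - S' /ₘ w) = 0
  · rw [h0, mul_zero, degree_zero]
    exact WithBot.bot_lt_coe _
  · rw [degree_eq_natDegree h0] at h
    have h2' : (S /ₘ w - S' /ₘ w).natDegree < H - j := by exact_mod_cast h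
    rw [degree_mul, degree_eq_natDegree h0, degree_eq_natDegree hw.ne_zero, hwj]
    have : j + (S /ₘ w - S' /ₘ w).natDegree < H := by omega
    exact_mod_cast this

theorem prs_quo {N H j : ℕ} {ι : Type} (I : Finset ι) (S : ι → K[X])
    (hS : ∀ i ∈ I, (S i).Monic ∧ (S i).natDegree = N) {w : K[X]} (hw : w.Monic)
    (hwj : w.natDegree = j) (hj : j ≤ N) (hjH : j ≤ H) :
    Prs I (fun i => S i /ₘ w) (H - j) ≤ Prs I S H := by
  unfold Prs
  refine card_le_card ?_
  rintro ⟨i, k⟩ h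
  rw [mem_filter, mem_product] at h ⊢
  refine ⟨h.1, ?_⟩
  exact quo_deg (hS i h.1.1).1 (hS i h.1.1).2 (hS k h.1.2).1 (hS k h.1.2).2 hw hwj hj hjH h.2

theorem quo_sub {H j r : ℕ} (a : Fin r → ℕ) {S w : K[X]} (hw : w.Monic) (hwj : w.natDegree = j)
    (hjH : j ≤ H) (f3 : (S - w * (S /ₘ w)).degree < (j : WithBot ℕ)) :
    (((Fintype.piFinset fun i => Irn K (a i)).filter
      (fun P => (∏ i, P i - (S /ₘ w)).degree < ((H - j : ℕ) : WithBot ℕ))).card : ℝ) ≤
      (((Fintype.piFinset fun i => Irn K (a i)).filter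
        (fun P => (w * ∏ i, P i - S).degree < (H : WithBot ℕ))).card : ℝ) := by
  have hsub : ((Fintype.piFinset fun i => Irn K (a i)).filter
      (fun P => (∏ i, P i - (S /ₘ w)).degree < ((H - j : ℕ) : WithBot ℕ))) ⊆
      ((Fintype.piFinset fun i => Irn K (a i)).filter
        (fun P => (w * ∏ i, P i - S).degree < (H : WithBot ℕ))) := by
    intro P hPP
    rw [mem_filter] at hPP ⊢
    refine ⟨hPP.1, ?_⟩
    have e : w * ∏ i, P i - S = w * (∏ i, P i - (S /ₘ w)) - (S - w * (S /ₘ w)) := by ring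
    rw [e]
    refine (degree_sub_le _ _).trans_lt ?_
    rw [max_lt_iff]
    constructor
    · by_cases h0 : (∏ i, P i - (S /ₘ w)) = 0
      · rw [h0, mul_zero, degree_zero]
        exact WithBot.bot_lt_coe _
      · have h2 := hPP.2
        rw [degree_eq_natDegree h0] at h2
        have h2' : (∏ i, P i - (S /ₘ w)).natDegree < H - j := by exact_mod_cast h2
        rw [degree_mul, degree_eq_natDegree h0, degree_eq_natDegree hw.ne_zero, hwj]
        have : j + (∏ i, P i - (S /ₘ w)).natDegree < H := by omega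
        exact_mod_cast this
    · refine f3.trans_le ?_
      exact_mod_cast hjH
  exact_mod_cast card_le_card hsub

theorem perwA {r : ℕ} {C : ℝ} (hC : 0 < C)
    (hP : ∀ (N H : ℕ) (a : Fin r → ℕ) (ι : Type) (I : Finset ι) (S : ι → K[X]), (∀ i, 1 ≤ a i) →
      ∑ i, a i = N → H ≤ N → (∀ i ∈ I, (S i).Monic ∧ (S i).natDegree = N) →
      |(∑ j ∈ I, (((Fintype.piFinset fun i => Irn K (a i)).filter
          (fun P => (∏ i, P i - S j).degree < (H : WithBot ℕ))).card : ℝ)) -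
        I.card * (∏ i, ((Irn K (a i)).card : ℝ)) * (Fintype.card K : ℝ) ^ H /
          (Fintype.card K : ℝ) ^ N| ≤
        (C * N) ^ r * (Fintype.card K : ℝ) ^ ((N : ℝ) / 2) * Real.sqrt (Prs I S H))
    {N H j : ℕ} (a : Fin r → ℕ) (ha : ∀ i, 4 ≤ a i) (haj : ∑ i, a i + j = N) (hjH : j ≤ H)
    (hHN : H ≤ N) {ι : Type} (I : Finset ι) (S : ι → K[X])
    (hS : ∀ i ∈ I, (S i).Monic ∧ (S i).natDegree = N) {w : K[X]} (hw : w.Monic)
    (hwj : w.natDegree = j) :
    I.card * ((Fintype.card K : ℝ) ^ (H - j) / (2 * N) ^ r) -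
      (C * N) ^ r * (Fintype.card K : ℝ) ^ (((N - j : ℕ) : ℝ) / 2) * Real.sqrt (Prs I S H) ≤
      ∑ k ∈ I, (((Fintype.piFinset fun i => Irn K (a i)).filter
        (fun P => (w * ∏ i, P i - S k).degree < (H : WithBot ℕ))).card : ℝ) := by
  have hq := q_ge (k := K)
  have hjN : j ≤ N := hjH.trans hHN
  have h1 := hP (N - j) (H - j) a ι I (fun i => S i /ₘ w)
    (fun i => le_trans (by norm_num) (ha i)) (by omega) (by omega)
    (fun i hi => by
      obtain ⟨f1, f2, -⟩ := div_facts (hS i hi).1 (hS i hi).2 hw hwj hjN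
      exact ⟨f1, f2⟩)
  have h2 : ∑ k ∈ I, (((Fintype.piFinset fun i => Irn K (a i)).filter
      (fun P => (∏ i, P i - (S k /ₘ w)).degree < ((H - j : ℕ) : WithBot ℕ))).card : ℝ) ≤
      ∑ k ∈ I, (((Fintype.piFinset fun i => Irn K (a i)).filter
        (fun P => (w * ∏ i, P i - S k).degree < (H : WithBot ℕ))).card : ℝ) := by
    refine sum_le_sum fun k hk => ?_
    exact quo_sub a hw hwj hjH (div_facts (hS k hk).1 (hS k hk).2 hw hwj hjN).2.2
  refine le_trans ?_ h2
  have h3 := (abs_le.1 h1).1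
  have hsum : ∑ i, a i = N - j := by omega
  have h4 : (Fintype.card K : ℝ) ^ (N - j) / (2 * N) ^ r ≤ ∏ i, ((Irn K (a i)).card : ℝ) := by
    have h5 : ∏ i : Fin r, ((Fintype.card K : ℝ) ^ (a i) / (2 * N)) ≤
        ∏ i, ((Irn K (a i)).card : ℝ) := by
      refine prod_le_prod (fun i _ => by positivity) fun i _ => irn_lower (ha i) ?_
      have := Finset.single_le_sum (f := a) (fun _ _ => Nat.zero_le _) (Finset.mem_univ i)
      omega
    rw [prod_div_distrib, prod_pow_eq_pow_sum, hsum, prod_const, Finset.card_univ,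
      Fintype.card_fin] at h5
    exact h5
  have h6 : I.card * ((Fintype.card K : ℝ) ^ (H - j) / (2 * N) ^ r) ≤
      I.card * (∏ i, ((Irn K (a i)).card : ℝ)) *
        (Fintype.card K : ℝ) ^ (H - j) / (Fintype.card K : ℝ) ^ (N - j) := by
    have hpos : (0 : ℝ) < (Fintype.card K : ℝ) ^ (N - j) := by positivity
    rw [le_div_iff₀ hpos]
    calc I.card * ((Fintype.card K : ℝ) ^ (H - j) / (2 * N) ^ r) * (Fintype.card K : ℝ) ^ (N - j)
        = I.card * ((Fintype.card K : ℝ) ^ (N - j) / (2 * N) ^ r) *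
            (Fintype.card K : ℝ) ^ (H - j) := by ring
      _ ≤ _ := by
          refine mul_le_mul_of_nonneg_right ?_ (by positivity)
          exact mul_le_mul_of_nonneg_left h4 (Nat.cast_nonneg _)
  have h7 : (C * ((N - j : ℕ) : ℝ)) ^ r * (Fintype.card K : ℝ) ^ (((N - j : ℕ) : ℝ) / 2) *
      Real.sqrt (Prs I (fun i => S i /ₘ w) (H - j)) ≤
      (C * N) ^ r * (Fintype.card K : ℝ) ^ (((N - j : ℕ) : ℝ) / 2) *
        Real.sqrt (Prs I S H) := by
    have e1 : ((N - j : ℕ) : ℝ) ≤ N := by exact_mod_cast Nat.sub_le _ _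
    have e2 : Real.sqrt (Prs I (fun i => S i /ₘ w) (H - j)) ≤ Real.sqrt (Prs I S H) := by
      apply Real.sqrt_le_sqrt
      exact_mod_cast prs_quo I S hS hw hwj hjN hjH
    gcongr
  linarith

/-- the error term is negligible -/
theorem errA {r : ℕ} {C δ q : ℝ} (hC : 0 < C) (hδ : 0 < δ) (hq : 2 ≤ q) :
    ∃ n₀ : ℕ, 1 ≤ n₀ ∧ ∀ N : ℕ, n₀ ≤ N → ∀ (H j : ℕ) (X M : ℝ), 0 ≤ X → 0 ≤ M →
      q ^ ((1 + δ) * (N : ℝ)) * X ≤ M ^ 2 * q ^ (2 * H) → (j : ℝ) ≤ δ / 2 * N →
      j ≤ H → j ≤ N → (C * N) ^ r * q ^ (((N - j : ℕ) : ℝ) / 2) * Real.sqrt X ≤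
        1 / 2 * (M * (q ^ (H - j) / (2 * N) ^ r)) := by
  have hq0 : (0 : ℝ) < q := by linarith
  have hB : 1 < q ^ (δ / 4) := Real.one_lt_rpow (by linarith) (by positivity)
  have ht := tendsto_pow_const_div_const_pow_of_one_lt (2 * r) hB
  have hev := ht.eventually_lt_const (u := 1 / (2 * (2 * C) ^ r)) (by positivity)
  obtain ⟨n₀, hn₀⟩ := Filter.eventually_atTop.1 hev
  refine ⟨n₀ + 1, by omega, ?_⟩
  intro N hN H j X M hX hM hXM hj hjH hjN
  have h1 := hn₀ N (by omega)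
  have hN0 : (0 : ℝ) < N := by exact_mod_cast (show 0 < N by omega)
  have hBN : (0 : ℝ) < (q ^ (δ / 4)) ^ N := by positivity
  rw [div_lt_div_iff₀ hBN (by positivity), one_mul] at h1
  have h2 : (q ^ (δ / 4)) ^ N = q ^ (δ * N / 4) := by
    rw [← Real.rpow_natCast, ← Real.rpow_mul hq0.le]
    congr 1
    ring
  set E : ℝ := q ^ ((1 + δ) * (N : ℝ) / 2) with hE
  have hE0 : 0 < E := by positivity
  have hE2 : E ^ 2 = q ^ ((1 + δ) * (N : ℝ)) := by
    rw [hE, ← Real.rpow_natCast, ← Real.rpow_mul hq0.le]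
    congr 1
    push_cast
    ring
  have hs0 := Real.sqrt_nonneg X
  have hES : E * Real.sqrt X ≤ M * q ^ H := by
    rw [← sq_le_sq₀ (by positivity) (by positivity), mul_pow, mul_pow, hE2, Real.sq_sqrt hX,
      ← pow_mul, mul_comm H 2]
    exact hXM
  have h3 : q ^ (((N - j : ℕ) : ℝ) / 2) * q ^ (δ * N / 4) * q ^ j ≤ E := by
    rw [hE, ← Real.rpow_natCast q j, ← Real.rpow_add hq0, ← Real.rpow_add hq0]
    apply Real.rpow_le_rpow_of_exponent_le (by linarith)
    rw [Nat.cast_sub hjN]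
    linarith
  have h4 : (0 : ℝ) < q ^ (((N - j : ℕ) : ℝ) / 2) := by positivity
  have h5 : (C * N) ^ r * (2 * N) ^ r * 2 ≤ q ^ (δ * N / 4) := by
    rw [← h2]
    refine le_trans (le_of_eq ?_) h1.le
    rw [mul_pow, mul_pow, mul_pow, pow_mul']
    ring
  have h6 : (0 : ℝ) < (2 * N) ^ r := by positivity
  have hqj : (0 : ℝ) < q ^ j := by positivity
  have hHj : q ^ H = q ^ (H - j) * q ^ j := by
    rw [← pow_add]
    congr 1
    omega
  have h7 : ((C * N) ^ r * q ^ (((N - j : ℕ) : ℝ) / 2) * Real.sqrt X) * (2 * N) ^ r * 2 ≤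
      M * q ^ (H - j) := by
    have h8 : (((C * N) ^ r * q ^ (((N - j : ℕ) : ℝ) / 2) * Real.sqrt X) * (2 * N) ^ r * 2) *
        q ^ j ≤ (M * q ^ (H - j)) * q ^ j := by
      calc (((C * N) ^ r * q ^ (((N - j : ℕ) : ℝ) / 2) * Real.sqrt X) * (2 * N) ^ r * 2) * q ^ j
          = q ^ (((N - j : ℕ) : ℝ) / 2) * ((C * N) ^ r * (2 * N) ^ r * 2) * q ^ j *
              Real.sqrt X := by ring
        _ ≤ q ^ (((N - j : ℕ) : ℝ) / 2) * q ^ (δ * N / 4) * q ^ j * Real.sqrt X := by gcongr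
        _ ≤ E * Real.sqrt X := by gcongr
        _ ≤ M * q ^ H := hES
        _ = _ := by rw [hHj]; ring
    exact le_of_mul_le_mul_right h8 hqj
  rw [mul_div_assoc', mul_div_assoc', le_div_iff₀ h6]
  linarith

/-- the injection into the smooth polynomials -/
theorem injA {r B l N H y : ℕ} {S : K[X]}
    (hup : ∀ a : Fin r → ℕ, (∀ i : Fin r, B + (i : ℕ) * l ≤ a i ∧ a i < B + ((i : ℕ) + 1) * l) →
      ∀ i, a i ≤ y) (hBy : B ≤ y)
    (hsum : ∀ a : Fin r → ℕ, (∀ i : Fin r, B + (i : ℕ) * l ≤ a i ∧ a i < B + ((i : ℕ) + 1) * l) →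
      ∑ i, a i ≤ N ∧ N - ∑ i, a i < B) :
    ((Fintype.piFinset fun i : Fin r => Finset.Ico (B + (i : ℕ) * l) (B + ((i : ℕ) + 1) * l)).sigma
      fun a => (Qn K (N - ∑ i, a i)).sigma fun w =>
        (Fintype.piFinset fun i => Irn K (a i)).filter
          (fun P => (w * ∏ i, P i - S).degree < (H : WithBot ℕ))).card ≤ (SmI K N H y S).card := by
  have hmem : ∀ a ∈ Fintype.piFinset
      (fun i : Fin r => Finset.Ico (B + (i : ℕ) * l) (B + ((i : ℕ) + 1) * l)),
      ∀ i : Fin r, B + (i : ℕ) * l ≤ a i ∧ a i < B + ((i : ℕ) + 1) * l := by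
    intro a ha i
    exact mem_Ico.1 (Fintype.mem_piFinset.1 ha i)
  refine card_le_card_of_injOn (fun t => t.2.1 * ∏ i, t.2.2 i) ?_ ?_
  · rintro ⟨a, w, P⟩ ht
    rw [mem_coe, mem_sigma] at ht
    obtain ⟨ha, ht⟩ := ht
    rw [mem_sigma] at ht
    obtain ⟨hw, ht⟩ := ht
    rw [mem_filter] at ht
    have h1 := hsum a (hmem a ha)
    have h2 := hup a (hmem a ha)
    exact mem_aux (hmem a ha) h2 (by omega) h1.2 (by omega) hw
      (Fintype.mem_piFinset.1 ht.1) ht.2
  · rintro ⟨a, w, P⟩ ht ⟨a', w', P'⟩ ht' heq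
    rw [mem_coe, mem_sigma] at ht ht'
    obtain ⟨ha, ht⟩ := ht
    obtain ⟨ha', ht'⟩ := ht'
    rw [mem_sigma] at ht ht'
    obtain ⟨hw, ht⟩ := ht
    obtain ⟨hw', ht'⟩ := ht'
    rw [mem_filter] at ht ht'
    have hw1 := mem_Qn.1 hw'
    have hB1 := (hsum a' (hmem a' ha')).2
    obtain ⟨e1, e2, e3⟩ := inj_aux (hmem a ha) (hmem a' ha') hw1.1 (by rw [hw1.2.1]; exact hB1)
      (Fintype.mem_piFinset.1 ht.1) (Fintype.mem_piFinset.1 ht'.1) heq
    simp only at e1 e2 e3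
    subst e1
    subst e2
    subst e3
    rfl

/-- **Task SMA.** -/
theorem smA (hp : S_prdA) : S_smA := by
  intro K _ _ η δ hη hδ
  obtain ⟨r, ν, hr, hν, n₁, hn₁⟩ := params hη (half_pos hδ)
  obtain ⟨C, hC, hP⟩ := hp K r hr
  have hq := q_ge (k := K)
  obtain ⟨n₂, hn₂1, hn₂⟩ := errA (r := r) hC hδ hq
  refine ⟨(ν / 4) ^ r / 8, by positivity, max n₁ n₂, ?_⟩
  intro N hN H y ι I S hI hH hHN hy hS hPrs
  obtain ⟨B, l, hB, hb1, hb2, hb3, hb4, hl⟩ := hn₁ N (le_of_max_le_left hN)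
  have hN2 : n₂ ≤ N := le_of_max_le_right hN
  have hN0 : (0 : ℝ) < N := by exact_mod_cast (show 0 < N by omega)
  have hby : B + r * l ≤ y := by
    have : ((B + r * l : ℕ) : ℝ) ≤ y := hb2.trans hy
    exact_mod_cast this
  set A : Fin r → Finset ℕ := fun i => Finset.Ico (B + (i : ℕ) * l) (B + ((i : ℕ) + 1) * l) with hA
  have hmem : ∀ a ∈ Fintype.piFinset A,
      ∀ i : Fin r, B + (i : ℕ) * l ≤ a i ∧ a i < B + ((i : ℕ) + 1) * l := by
    intro a ha i
    exact mem_Ico.1 (Fintype.mem_piFinset.1 ha i)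
  have hup : ∀ a : Fin r → ℕ,
      (∀ i : Fin r, B + (i : ℕ) * l ≤ a i ∧ a i < B + ((i : ℕ) + 1) * l) →
      ∀ i : Fin r, a i ≤ B + r * l := by
    intro a ha i
    have h1 := (ha i).2
    have h2 := Nat.mul_le_mul_right l (show (i : ℕ) + 1 ≤ r from i.2)
    omega
  have hsum1 : ∀ a : Fin r → ℕ,
      (∀ i : Fin r, B + (i : ℕ) * l ≤ a i ∧ a i < B + ((i : ℕ) + 1) * l) →
      ∑ i, a i ≤ N := by
    intro a ha
    refine le_trans (sum_le_sum fun i _ => hup a ha i) ?_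
    rw [sum_const, Finset.card_univ, Fintype.card_fin, smul_eq_mul]
    exact hb1
  have hsum2 : ∀ a : Fin r → ℕ,
      (∀ i : Fin r, B + (i : ℕ) * l ≤ a i ∧ a i < B + ((i : ℕ) + 1) * l) →
      r * B ≤ ∑ i, a i := by
    intro a ha
    refine le_trans (le_of_eq ?_) (sum_le_sum (f := fun _ : Fin r => B) fun i _ => ?_)
    · rw [sum_const, Finset.card_univ, Fintype.card_fin, smul_eq_mul]
    · have := (ha i).1
      omega
  have hjB : ∀ a : Fin r → ℕ,
      (∀ i : Fin r, B + (i : ℕ) * l ≤ a i ∧ a i < B + ((i : ℕ) + 1) * l) →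
      N - ∑ i, a i < B := by
    intro a ha
    have h1 := hsum2 a ha
    omega
  have hjδ : ∀ a ∈ Fintype.piFinset A, ((N - ∑ i, a i : ℕ) : ℝ) ≤ δ / 2 * N := by
    intro a ha
    refine le_trans ?_ hb4
    rw [Nat.cast_sub (hsum1 a (hmem a ha))]
    have h1 : ((r * B : ℕ) : ℝ) ≤ ((∑ i, a i : ℕ) : ℝ) := by exact_mod_cast hsum2 a (hmem a ha)
    rw [Nat.cast_mul] at h1
    linarith
  have hjH : ∀ a ∈ Fintype.piFinset A, N - ∑ i, a i ≤ H := by
    intro a ha
    have h1 := hjδ a ha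
    have h2 : ((N - ∑ i, a i : ℕ) : ℝ) ≤ H := by nlinarith
    exact_mod_cast h2
  -- the count
  have hinner : ∀ a ∈ Fintype.piFinset A,
      I.card * ((Fintype.card K : ℝ) ^ H / (8 * (2 * N) ^ r)) ≤
      ∑ w ∈ Qn K (N - ∑ i, a i), ∑ k ∈ I, (((Fintype.piFinset fun i => Irn K (a i)).filter
        (fun P => (w * ∏ i, P i - S k).degree < (H : WithBot ℕ))).card : ℝ) := by
    intro a ha
    have h1 := hsum1 a (hmem a ha)
    have h2 := hjH a ha
    set j := N - ∑ i, a i with hj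
    have h3 : ∀ w ∈ Qn K j, 1 / 2 * (I.card * ((Fintype.card K : ℝ) ^ (H - j) / (2 * N) ^ r)) ≤
        ∑ k ∈ I, (((Fintype.piFinset fun i => Irn K (a i)).filter
          (fun P => (w * ∏ i, P i - S k).degree < (H : WithBot ℕ))).card : ℝ) := by
      intro w hw
      rw [mem_Qn] at hw
      have h4 := perwA hC hP a (fun i => hB.trans (by have := (hmem a ha i).1; omega))
        (show ∑ i, a i + j = N by omega) h2 hHN I S hS hw.1 hw.2.1
      have h5 := hn₂ N hN2 H j (Prs I S H) I.card (Nat.cast_nonneg _) (Nat.cast_nonneg _) hPrs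
        (hjδ a ha) h2 (by omega)
      linarith
    refine le_trans ?_ (sum_le_sum h3)
    rw [sum_const, nsmul_eq_mul]
    have h6 := sqf_lower (K := K) j
    have h7 : (Fintype.card K : ℝ) ^ H = (Fintype.card K : ℝ) ^ j * (Fintype.card K : ℝ) ^ (H - j) := by
      rw [← pow_add]
      congr 1
      omega
    calc I.card * ((Fintype.card K : ℝ) ^ H / (8 * (2 * N) ^ r)) =
        ((Fintype.card K : ℝ) ^ j / 4) *
        (1 / 2 * (I.card * ((Fintype.card K : ℝ) ^ (H - j) / (2 * N) ^ r))) := by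
          rw [h7]
          field_simp
          norm_num
      _ ≤ _ := by gcongr
  set T : ι → Finset (Σ _ : (Fin r → ℕ), Σ _ : K[X], (Fin r → K[X])) := fun k =>
    (Fintype.piFinset A).sigma fun a => (Qn K (N - ∑ i, a i)).sigma fun w =>
      (Fintype.piFinset fun i => Irn K (a i)).filter
        (fun P => (w * ∏ i, P i - S k).degree < (H : WithBot ℕ)) with hT
  have hTc : ∀ k, ((T k).card : ℝ) = ∑ a ∈ Fintype.piFinset A, ∑ w ∈ Qn K (N - ∑ i, a i),
      (((Fintype.piFinset fun i => Irn K (a i)).filter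
        (fun P => (w * ∏ i, P i - S k).degree < (H : WithBot ℕ))).card : ℝ) := by
    intro k
    simp only [hT]
    rw [card_sigma]
    push_cast
    refine sum_congr rfl fun a _ => ?_
    rw [card_sigma]
    push_cast
    rfl
  have hA' : ((Fintype.piFinset A).card : ℝ) = (l : ℝ) ^ r := by
    rw [Fintype.card_piFinset]
    have : ∀ i : Fin r, (A i).card = l := by
      intro i
      rw [hA]
      simp only [Nat.card_Ico]
      rw [add_mul, one_mul]
      omega
    rw [prod_congr rfl fun i _ => this i, prod_const, Finset.card_univ, Fintype.card_fin]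
    push_cast
    rfl
  have h1 : (l : ℝ) ^ r * (I.card * ((Fintype.card K : ℝ) ^ H / (8 * (2 * N) ^ r))) ≤
      ∑ k ∈ I, ((T k).card : ℝ) := by
    rw [sum_congr rfl (fun k _ => hTc k), sum_comm]
    rw [← hA', ← nsmul_eq_mul, ← sum_const]
    refine sum_le_sum fun a ha => ?_
    rw [sum_comm]
    exact hinner a ha
  have h2 : ∑ k ∈ I, ((l : ℝ) ^ r * ((Fintype.card K : ℝ) ^ H / (8 * (2 * N) ^ r))) ≤
      ∑ k ∈ I, ((T k).card : ℝ) := by
    rw [sum_const, nsmul_eq_mul]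
    refine le_trans (le_of_eq ?_) h1
    ring
  obtain ⟨k, hk, hkT⟩ := exists_le_of_sum_le hI h2
  refine ⟨k, hk, ?_⟩
  have h3 : (T k).card ≤ (SmI K N H y (S k)).card := by
    refine injA (fun a ha i => (hup a ha i).trans hby) (by omega) (fun a ha => ?_)
    exact ⟨hsum1 a ha, hjB a ha⟩
  have h4 : ((T k).card : ℝ) ≤ ((SmI K N H y (S k)).card : ℝ) := by exact_mod_cast h3
  refine le_trans ?_ (hkT.trans h4)
  calc (ν / 4) ^ r / 8 * (Fintype.card K : ℝ) ^ H
      = (ν / 2 * N) ^ r * ((Fintype.card K : ℝ) ^ H / (8 * (2 * N) ^ r)) := by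
        have e : (ν / 2 * N) ^ r = (ν / 4) ^ r * (2 * N) ^ r := by
          rw [← mul_pow]
          congr 1
          ring
        rw [e]
        field_simp
    _ ≤ _ := by gcongr

end Pool.Agent.H385.SI
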